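import Pool.Agent.Helper70.ZD.Top
import Pool.Agent.Helper90.ZD.Defs

/-!
# ZD: a relation `P(c) + Q(c) R(c) = 0` on a Bohr set in the simplex and a shift
-/

set_option autoImplicit false

open Finset MvPolynomial

namespace Pool.Agent.Helper70.ZD

open Pool.Agent.Helper90.ZD (Sig pv)

/-- The point `c + e_i - e_j`. -/
def mv {n : ℕ} (i j : Fin n) (c : Fin n → ℕ) : Fin n → ℕ :=
  fun k => if k = i then c k + 1 else if k = j then c k - 1 else c k

theorem mem_sig {n C : ℕ} {c : Fin n → ℕ} : c ∈ Sig n C ↔ ∑ i, c i = C := by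
  rw [Finset.mem_piAntidiag]
  exact ⟨fun h => h.1, fun h => ⟨h, fun i _ => Finset.mem_univ i⟩⟩

/-- The coordinates of `c + e_i - e_j`. -/
theorem mv_cast {n : ℕ} {i j : Fin n} (hij : i ≠ j) {c : Fin n → ℕ} (hc : 1 ≤ c j) {K : Type} [CommRing K] (k : Fin n) :
    ((mv i j c k : ℕ) : K) = (c k : K) + ((if k = i then 1 else 0) - if k = j then 1 else 0) := by
  unfold mv
  by_cases h1 : k = i
  · subst h1
    rw [if_pos rfl, if_pos rfl, if_neg hij]
    push_cast
    ring
  · rw [if_neg h1, if_neg h1]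
    by_cases h2 : k = j
    · subst h2
      rw [if_pos rfl, if_pos rfl, Nat.cast_sub hc]
      push_cast
      ring
    · rw [if_neg h2, if_neg h2]
      simp

theorem mv_sum {n : ℕ} {i j : Fin n} (hij : i ≠ j) {c : Fin n → ℕ} (hc : 1 ≤ c j) (t : Fin n → ℝ) :
    ∑ k, t k * (mv i j c k : ℝ) = ∑ k, t k * (c k : ℝ) + (t i - t j) := by
  have h1 : ∀ k, t k * (mv i j c k : ℝ) =
      t k * (c k : ℝ) + ((if k = i then t k else 0) - if k = j then t k else 0) := by
    intro k
    rw [mv_cast hij hc]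
    split_ifs <;> ring
  rw [sum_congr rfl fun k _ => h1 k, sum_add_distrib, sum_sub_distrib, sum_ite_eq' univ i, sum_ite_eq' univ j]
  simp

theorem mv_mem {n C : ℕ} {i j : Fin n} (hij : i ≠ j) {c : Fin n → ℕ} (hc : 1 ≤ c j) (h : c ∈ Sig n C) :
    mv i j c ∈ Sig n C := by
  rw [mem_sig] at h ⊢
  have h1 := mv_sum hij hc (fun _ => 1)
  simp only [one_mul, sub_self, add_zero] at h1
  rw [← h]
  exact_mod_cast h1

/-- Part `[ε / 4, 3 ε / 4)` of the arc and the shift by `m + θ`. -/
theorem fract_shift {y ε θ : ℝ} {m : ℤ} (hε : 0 < ε) (hε1 : ε ≤ 1) (hθ : |θ| ≤ ε / 4)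
    (h : Int.fract (y - ε / 4) < ε / 2) :
    Int.fract y < ε ∧ Int.fract (y + (m + θ)) < ε := by
  set k := ⌊y - ε / 4⌋ with hk
  have h1 : y - ε / 4 = k + Int.fract (y - ε / 4) := (Int.floor_add_fract _).symm
  have h0 := Int.fract_nonneg (y - ε / 4)
  have h2 := abs_le.1 hθ
  have h3 : Int.fract y = Int.fract (y - ε / 4) + ε / 4 := by
    rw [Int.fract_eq_iff]
    refine ⟨by linarith, by linarith, k, by linarith⟩
  have h4 : Int.fract (y + (m + θ)) = Int.fract (y - ε / 4) + ε / 4 + θ := by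
    rw [Int.fract_eq_iff]
    refine ⟨by linarith, by linarith, k + m, ?_⟩
    push_cast
    linarith
  exact ⟨by linarith, by linarith⟩

section rel

variable {r : ℕ}

/-- A polynomial in the last coordinates, as a polynomial in all coordinates, over the complex numbers. -/
noncomputable def up (p : MvPolynomial (Fin r) ℚ) : MvPolynomial (Fin (r + 1)) ℂ :=
  rename Fin.succ (map (algebraMap ℚ ℂ) p)

theorem pv_up (p : MvPolynomial (Fin r) ℚ) (c : Fin (r + 1) → ℕ) :
    pv (up p) c = ((eval (fun i => (c i.succ : ℚ)) p : ℚ) : ℂ) := by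
  unfold pv up
  rw [eval_rename, eval_map]
  have h1 : ((fun i => (c i : ℂ)) ∘ Fin.succ) = fun i : Fin r => algebraMap ℚ ℂ (c i.succ : ℚ) := by
    funext i
    simp
  rw [h1]
  have h2 := eval₂_comp_left (algebraMap ℚ ℂ) (RingHom.id ℚ) (fun i : Fin r => (c i.succ : ℚ)) p
  rw [RingHom.comp_id] at h2
  exact h2.symm

theorem totalDegree_up (p : MvPolynomial (Fin r) ℚ) : (up p).totalDegree ≤ p.totalDegree := by
  unfold up
  refine (totalDegree_rename_le _ _).trans ?_
  exact Finset.sup_mono (support_map_subset _ _)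

/-- A polynomial in the last coordinates of degree at most `C` which vanishes on the simplex. -/
theorem up_zero {C : ℕ} (p : MvPolynomial (Fin r) ℚ) (hp : p.totalDegree ≤ C)
    (h : ∀ c ∈ Sig (r + 1) C, pv (up p) c = 0) : p = 0 := by
  refine simplex_zero p hp fun c hc => ?_
  have h1 := h (Fin.cons (C - ∑ i, c i) c) (by
    rw [mem_sig, Fin.sum_univ_succ, Fin.cons_zero]
    simp only [Fin.cons_succ]
    omega)
  rw [pv_up] at h1
  simp only [Fin.cons_succ] at h1
  exact_mod_cast h1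

/-- The coordinate number `j` as a polynomial in the last coordinates. -/
noncomputable def crd (C : ℕ) : Fin (r + 1) → MvPolynomial (Fin r) ℚ :=
  Fin.cons (MvPolynomial.C (C : ℚ) - ∑ i, X i) X

theorem crd_ne {C : ℕ} (hC : 0 < C) (j : Fin (r + 1)) : crd (r := r) C j ≠ 0 := by
  unfold crd
  refine Fin.cases ?_ (fun i => ?_) j
  · rw [Fin.cons_zero]
    intro h
    have h1 := congrArg (eval (fun _ : Fin r => (0 : ℚ))) h
    rw [map_sub, eval_C, map_sum, map_zero] at h1
    simp only [eval_X, sum_const_zero, sub_zero, Nat.cast_eq_zero] at h1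
    omega
  · rw [Fin.cons_succ]
    exact X_ne_zero i

theorem crd_totalDegree (C : ℕ) (j : Fin (r + 1)) : (crd (r := r) C j).totalDegree ≤ 1 := by
  unfold crd
  refine Fin.cases ?_ (fun i => ?_) j
  · rw [Fin.cons_zero]
    refine (totalDegree_sub _ _).trans (max_le ?_ ?_)
    · rw [totalDegree_C]
      exact Nat.zero_le _
    · refine totalDegree_finsetSum_le fun i _ => ?_
      rw [totalDegree_X]
  · rw [Fin.cons_succ, totalDegree_X]

theorem crd_eval {C : ℕ} {c : Fin (r + 1) → ℕ} (hc : c ∈ Sig (r + 1) C) (j : Fin (r + 1)) :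
    eval (fun i => (c i.succ : ℚ)) (crd (r := r) C j) = c j := by
  unfold crd
  refine Fin.cases ?_ (fun i => ?_) j
  · rw [Fin.cons_zero, map_sub, eval_C, map_sum]
    simp only [eval_X]
    rw [mem_sig, Fin.sum_univ_succ] at hc
    rw [← hc]
    push_cast
    ring
  · rw [Fin.cons_succ, eval_X]

/-- ZD, SHIFT: if `P(c) + Q(c) R(c) = 0` for all `c` in the simplex with `∑ t c` in an arc of length `ε`, and
`R(c + e_i - e_j) = ρ R(c)`, then `ρ = 1`. -/
theorem rho_one {C X X1 : ℕ} (hC : 0 < C) (hXC : X + X1 ≤ C) (t : Fin (r + 1) → ℝ)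
    (ε : ℝ) (hε : 0 < ε) (hε1 : ε ≤ 1)
    (hZ : ∀ (β : ℝ) (p : MvPolynomial (Fin (r + 1)) ℂ), p.totalDegree ≤ X + X1 →
      (∀ c ∈ Sig (r + 1) C, Int.fract (∑ i, t i * c i - β) < ε / 2 → pv p c = 0) →
      ∀ c ∈ Sig (r + 1) C, pv p c = 0)
    (P Q : MvPolynomial (Fin r) ℚ) (hPQ : P ≠ 0 ∨ Q ≠ 0) (hP : P.totalDegree < X) (hQ : Q.totalDegree < X1)
    (R : (Fin (r + 1) → ℕ) → ℚ) (β0 : ℝ)
    (hR : ∀ c ∈ Sig (r + 1) C, Int.fract (∑ i, t i * c i - β0) < ε → R c ≠ 0)
    (hrel : ∀ c ∈ Sig (r + 1) C, Int.fract (∑ i, t i * c i - β0) < ε →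
      eval (fun i => (c i.succ : ℚ)) P + eval (fun i => (c i.succ : ℚ)) Q * R c = 0)
    (i j : Fin (r + 1)) (hij : i ≠ j) (m : ℤ) (θ : ℝ) (ht : t i - t j = m + θ) (hθ : |θ| ≤ ε / 4) (ρ : ℚ)
    (hshift : ∀ c ∈ Sig (r + 1) C, 1 ≤ c j → Int.fract (∑ i, t i * c i - β0) < ε →
      Int.fract (∑ k, t k * c k + (m + θ) - β0) < ε →
      ⌊∑ k, t k * c k + (m + θ) - β0⌋ = ⌊∑ k, t k * c k - β0⌋ + m → R (mv i j c) = ρ * R c) : ρ = 1 := by
  classical
  -- `Q = 0` or `P = 0` is impossible
  have hsmall : ∀ p : MvPolynomial (Fin r) ℚ, p.totalDegree < X + X1 →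
      (∀ c ∈ Sig (r + 1) C, Int.fract (∑ i, t i * c i - β0) < ε → eval (fun i => (c i.succ : ℚ)) p = 0) → p = 0 := by
    intro p hp h
    refine up_zero (C := C) p (by omega) (hZ β0 (up p) ((totalDegree_up p).trans hp.le) fun c hc hf => ?_)
    rw [pv_up, h c hc (by linarith)]
    exact Rat.cast_zero
  have hP0 : P ≠ 0 := by
    intro h0
    rcases hPQ with h | h
    · exact h h0
    · refine h (hsmall Q (by omega) fun c hc hf => ?_)
      have h1 := hrel c hc hf
      rw [h0, map_zero, zero_add] at h1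
      exact (mul_eq_zero.1 h1).resolve_right (hR c hc hf)
  have hQ0 : Q ≠ 0 := by
    intro h0
    refine hP0 (hsmall P (by omega) fun c hc hf => ?_)
    have h1 := hrel c hc hf
    rw [h0, map_zero, zero_mul, add_zero] at h1
    exact h1
  -- the difference
  set e : Fin r → ℚ := fun k => (if k.succ = i then 1 else 0) - if k.succ = j then 1 else 0 with he
  set G : MvPolynomial (Fin r) ℚ := MvPolynomial.C ρ * P * sh e Q - sh e P * Q with hG
  have hGd : (crd C j * G).totalDegree ≤ X + X1 := by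
    have h1 := totalDegree_mul (crd (r := r) C j) G
    have h2 := crd_totalDegree (r := r) C j
    have h3 := totalDegree_sub (MvPolynomial.C ρ * P * sh e Q) (sh e P * Q)
    have h4 := totalDegree_mul (MvPolynomial.C ρ * P) (sh e Q)
    have h5 := totalDegree_mul (MvPolynomial.C ρ) P
    rw [totalDegree_C, zero_add] at h5
    have h6 := totalDegree_mul (sh e P) Q
    have h7 := sh_totalDegree_le e P
    have h8 := sh_totalDegree_le e Q
    rw [← hG] at h3
    rcases le_max_iff.1 h3 with h9 | h9 <;> omega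
  have hG0 : crd C j * G = 0 := by
    refine up_zero (C := C) _ (hGd.trans hXC) (hZ (β0 + ε / 4) _ ((totalDegree_up _).trans hGd) fun c hc hf => ?_)
    rw [pv_up, map_mul, crd_eval hc]
    have hf' : Int.fract ((∑ i, t i * c i - β0) - ε / 4) < ε / 2 := by
      have : ∑ i, t i * (c i : ℝ) - (β0 + ε / 4) = (∑ i, t i * c i - β0) - ε / 4 := by ring
      rwa [this] at hf
    obtain ⟨h1, h2⟩ := fract_shift (m := m) hε hε1 hθ hf'
    have h2' : Int.fract (∑ k, t k * c k + (m + θ) - β0) < ε := by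
      have : ∑ k, t k * (c k : ℝ) + (m + θ) - β0 = (∑ i, t i * c i - β0) + (m + θ) := by ring
      rwa [this]
    rcases Nat.eq_zero_or_pos (c j) with h0 | h0
    · rw [h0]
      simp
    · have hfl : ⌊∑ k, t k * (c k : ℝ) + (m + θ) - β0⌋ = ⌊∑ k, t k * (c k : ℝ) - β0⌋ + m := by
        set y : ℝ := ∑ k, t k * (c k : ℝ) - β0 with hy
        have e1 : ∑ k, t k * (c k : ℝ) + (m + θ) - β0 = y + (m + θ) := by rw [hy]; ring
        rw [e1]
        have h5 : y - ε / 4 = ⌊y - ε / 4⌋ + Int.fract (y - ε / 4) := (Int.floor_add_fract _).symm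
        have h6 := Int.fract_nonneg (y - ε / 4)
        have h7 := abs_le.1 hθ
        have h8 : ⌊y⌋ = ⌊y - ε / 4⌋ := by
          rw [Int.floor_eq_iff]
          constructor <;> linarith
        have h9 : ⌊y + (m + θ)⌋ = ⌊y - ε / 4⌋ + m := by
          rw [Int.floor_eq_iff]
          push_cast
          constructor <;> linarith
        rw [h8, h9]
      have hmem := mv_mem hij h0 hc
      have hsum := mv_sum hij h0 t
      rw [ht] at hsum
      have hf2 : Int.fract (∑ k, t k * (mv i j c k : ℝ) - β0) < ε := by rw [hsum]; exact h2'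
      have r1 := hrel c hc h1
      have r2 := hrel _ hmem hf2
      rw [hshift c hc h0 h1 h2' hfl] at r2
      have e1 : (fun k : Fin r => (mv i j c k.succ : ℚ)) = fun k => (c k.succ : ℚ) + e k := by
        funext k
        exact mv_cast hij h0 k.succ
      rw [e1, ← eval_sh, ← eval_sh] at r2
      have h3 : eval (fun i => (c i.succ : ℚ)) G = 0 := by
        rw [hG, map_sub, map_mul, map_mul, map_mul, eval_C]
        linear_combination (ρ * eval (fun i => (c i.succ : ℚ)) (sh e Q)) * r1 - eval (fun i => (c i.succ : ℚ)) Q * r2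
      rw [h3, mul_zero]
      exact Rat.cast_zero
  have hG1 : G = 0 := (mul_eq_zero.1 hG0).resolve_left (crd_ne hC j)
  exact top_eq_one e ρ hP0 hQ0 (sub_eq_zero.1 hG1)

end rel

end Pool.Agent.Helper70.ZD
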