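import Mathlib

/-!
# ZD: a polynomial of degree at most `C` which vanishes on the simplex is zero; top forms and shifts
-/

set_option autoImplicit false

open Finset MvPolynomial

namespace Pool.Agent.Helper70.ZD

section simplex

/-- A polynomial of degree at most `C` which vanishes at all points with natural coordinates and sum at most `C`. -/
theorem simplex_zero {r C : ℕ} {K : Type} [Field K] [CharZero K] (p : MvPolynomial (Fin r) K)
    (hp : p.totalDegree ≤ C)
    (h : ∀ c : Fin r → ℕ, ∑ i, c i ≤ C → eval (fun i => (c i : K)) p = 0) : p = 0 := by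
  classical
  by_contra hne
  obtain ⟨s, hs, hd⟩ : ∃ s ∈ p.support, s.degree = p.totalDegree := by
    have h1 : p.support.Nonempty := support_nonempty.2 hne
    obtain ⟨s, hs, hd⟩ := Finset.exists_mem_eq_sup p.support h1 (fun s => s.sum fun _ e => e)
    refine ⟨s, hs, ?_⟩
    rw [totalDegree, hd, Finsupp.degree_eq_sum, Finsupp.sum_fintype _ _ fun i => rfl]
  obtain ⟨x, hx, hx'⟩ := combinatorial_nullstellensatz_exists_eval_nonzero p s (mem_support_iff.1 hs) hd.symm
    (fun i => (Finset.range (s i + 1)).image (fun k : ℕ => (k : K))) (by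
      intro i
      rw [Finset.card_image_of_injective _ Nat.cast_injective, Finset.card_range]
      exact Nat.lt_succ_self _)
  have h2 : ∀ i, ∃ k : ℕ, k ≤ s i ∧ (k : K) = x i := by
    intro i
    obtain ⟨k, hk, hk'⟩ := Finset.mem_image.1 (hx i)
    exact ⟨k, Nat.lt_succ_iff.1 (Finset.mem_range.1 hk), hk'⟩
  choose c hc hcx using h2
  refine hx' ?_
  have h3 : x = fun i => (c i : K) := funext fun i => (hcx i).symm
  rw [h3]
  refine h c ?_
  refine (Finset.sum_le_sum fun i _ => hc i).trans ?_
  rw [Finsupp.degree_eq_sum] at hd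
  omega

end simplex

section shift

variable {r : ℕ} {K : Type} [Field K]

/-- The translation `p(X + e)`. -/
noncomputable def sh (e : Fin r → K) : MvPolynomial (Fin r) K →ₐ[K] MvPolynomial (Fin r) K :=
  aeval (fun i => X i + C (e i))

theorem eval_sh (e : Fin r → K) (p : MvPolynomial (Fin r) K) (x : Fin r → K) :
    eval x (sh e p) = eval (fun i => x i + e i) p := by
  unfold sh
  rw [aeval_def, ← coe_eval₂Hom]
  induction p using MvPolynomial.induction_on with
  | C a => simp
  | add p q hp hq => rw [map_add, map_add, hp, hq, map_add]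
  | mul_X p i hp =>
    rw [map_mul, map_mul, hp, map_mul]
    simp

/-- Translation of a monomial. -/
theorem sh_monomial (e : Fin r → K) (d : ℕ) : ∀ s : Fin r →₀ ℕ, s.degree = d → ∀ a : K,
    (sh e (monomial s a) - monomial s a).totalDegree ≤ d - 1 ∧
      (sh e (monomial s a) - monomial s a ≠ 0 → 0 < d) := by
  induction d with
  | zero =>
    intro s hs a
    have h0 : s = 0 := by rwa [Finsupp.degree_eq_zero_iff] at hs
    subst h0
    have h1 : sh e (monomial 0 a) - monomial 0 a = 0 := by
      rw [← C_apply]
      unfold sh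
      rw [algHom_C, algebraMap_eq, sub_self]
    rw [h1]
    simp
  | succ d ih =>
    intro s hs a
    refine ⟨?_, fun _ => Nat.succ_pos d⟩
    obtain ⟨i, hi⟩ : ∃ i, s i ≠ 0 := by
      by_contra h
      push Not at h
      have : s = 0 := Finsupp.ext h
      rw [this, map_zero] at hs
      omega
    set s' : Fin r →₀ ℕ := s - Finsupp.single i 1 with hs'
    have e1 : s = s' + Finsupp.single i 1 := by
      rw [hs']
      refine (tsub_add_cancel_of_le ?_).symm
      rw [Finsupp.single_le_iff]
      omega
    have e2 : s'.degree = d := by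
      have h := congrArg Finsupp.degree e1
      rw [map_add, hs, Finsupp.degree_single] at h
      omega
    obtain ⟨h1, h2⟩ := ih s' e2 a
    have e3 : monomial s a = monomial s' a * X i := by
      rw [e1, X, monomial_mul, mul_one]
    have e4 : sh e (monomial s a) - monomial s a =
        (sh e (monomial s' a) - monomial s' a) * X i + C (e i) * sh e (monomial s' a) := by
      rw [e3, map_mul]
      have : sh e (X i) = X i + C (e i) := by
        unfold sh
        rw [aeval_X]
      rw [this]
      ring
    have h3 : ((sh e (monomial s' a) - monomial s' a) * X i).totalDegree ≤ d := by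
      by_cases h0 : sh e (monomial s' a) - monomial s' a = 0
      · rw [h0, zero_mul, totalDegree_zero]
        exact Nat.zero_le _
      · have h4 := h2 h0
        refine (totalDegree_mul _ _).trans ?_
        rw [totalDegree_X]
        omega
    have h5 : (sh e (monomial s' a)).totalDegree ≤ d := by
      have h6 : sh e (monomial s' a) = (sh e (monomial s' a) - monomial s' a) + monomial s' a := by ring
      rw [h6]
      refine (totalDegree_add _ _).trans (max_le (by omega) ?_)
      refine (totalDegree_monomial_le _ _).trans (le_of_eq ?_)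
      rw [← e2, Finsupp.degree_eq_sum, Finsupp.sum_fintype _ _ fun i => rfl]
      rfl
    have h7 : (C (e i) * sh e (monomial s' a)).totalDegree ≤ d := by
      refine (totalDegree_mul _ _).trans ?_
      rw [totalDegree_C, zero_add]
      exact h5
    rw [e4]
    exact (totalDegree_add _ _).trans (max_le h3 h7)

/-- The difference `p(X + e) - p(X)` has smaller degree. -/
theorem sh_sub (e : Fin r → K) (p : MvPolynomial (Fin r) K) (h : sh e p - p ≠ 0) :
    (sh e p - p).totalDegree < p.totalDegree := by
  classical
  have e1 : sh e p - p = ∑ s ∈ p.support, (sh e (monomial s (coeff s p)) - monomial s (coeff s p)) := by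
    rw [sum_sub_distrib, ← map_sum, support_sum_monomial_coeff]
  have h0 : 0 < p.totalDegree := by
    by_contra hcon
    have h1 : p.totalDegree = 0 := by omega
    rw [totalDegree_eq_zero_iff_eq_C] at h1
    refine h ?_
    rw [h1]
    unfold sh
    rw [algHom_C, algebraMap_eq, sub_self]
  have h1 : (sh e p - p).totalDegree ≤ p.totalDegree - 1 := by
    rw [e1]
    refine totalDegree_finsetSum_le fun s hs => ?_
    have h2 := (sh_monomial e s.degree s rfl (coeff s p)).1
    have h3 : s.degree ≤ p.totalDegree := by
      have := le_totalDegree hs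
      rwa [Finsupp.sum_fintype _ _ fun i => rfl, ← Finsupp.degree_eq_sum] at this
    omega
  omega

theorem sh_totalDegree_le (e : Fin r → K) (p : MvPolynomial (Fin r) K) :
    (sh e p).totalDegree ≤ p.totalDegree := by
  by_cases h : sh e p - p = 0
  · rw [sub_eq_zero.1 h]
  · have h1 := sh_sub e p h
    have h2 : sh e p = (sh e p - p) + p := by ring
    rw [h2]
    exact (totalDegree_add _ _).trans (max_le h1.le le_rfl)

/-- Top forms: if `ρ p(X) q(X + e) = p(X + e) q(X)` then `ρ = 1`. -/
theorem top_eq_one (e : Fin r → K) (ρ : K) {p q : MvPolynomial (Fin r) K} (hp : p ≠ 0) (hq : q ≠ 0)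
    (h : C ρ * p * sh e q = sh e p * q) : ρ = 1 := by
  by_contra hne
  have hpq : p * q ≠ 0 := mul_ne_zero hp hq
  have h1 : C (ρ - 1) * (p * q) = (sh e p - p) * q - C ρ * p * (sh e q - q) := by
    rw [C_sub, C_1]
    linear_combination h
  have h2 : (C (ρ - 1) * (p * q)).totalDegree = p.totalDegree + q.totalDegree := by
    have h3 : (C (ρ - 1) : MvPolynomial (Fin r) K) ≠ 0 := by
      rw [Ne, C_eq_zero]
      exact sub_ne_zero.2 hne
    rw [totalDegree_mul_of_isDomain h3 hpq, totalDegree_C, zero_add, totalDegree_mul_of_isDomain hp hq]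
  have h3 : C (ρ - 1) * (p * q) ≠ 0 := by
    refine mul_ne_zero ?_ hpq
    rw [Ne, C_eq_zero]
    exact sub_ne_zero.2 hne
  have key : ∀ a : MvPolynomial (Fin r) K, a ≠ 0 → ((sh e p - p) * q = a → a.totalDegree < p.totalDegree + q.totalDegree) := by
    intro a ha h4
    rw [← h4] at ha ⊢
    have h5 : sh e p - p ≠ 0 := fun h6 => ha (by rw [h6, zero_mul])
    have h6 := sh_sub e p h5
    have h7 := totalDegree_mul (sh e p - p) q
    omega
  have key2 : C ρ * p * (sh e q - q) ≠ 0 →
      (C ρ * p * (sh e q - q)).totalDegree < p.totalDegree + q.totalDegree := by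
    intro ha
    have h5 : sh e q - q ≠ 0 := fun h6 => ha (by rw [h6, mul_zero])
    have h6 := sh_sub e q h5
    have h7 := totalDegree_mul (C ρ * p) (sh e q - q)
    have h8 := totalDegree_mul (C ρ) p
    rw [totalDegree_C, zero_add] at h8
    omega
  by_cases h4 : (sh e p - p) * q = 0
  · have h5 : C ρ * p * (sh e q - q) ≠ 0 := by
      intro h6
      rw [h4, h6, sub_zero] at h1
      exact h3 h1
    have h6 := key2 h5
    rw [h1, h4, zero_sub, totalDegree_neg] at h2
    omega
  · have h5 := key _ h4 rfl
    by_cases h6 : C ρ * p * (sh e q - q) = 0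
    · rw [h1, h6, sub_zero] at h2
      omega
    · have h7 := key2 h6
      have h8 := totalDegree_sub ((sh e p - p) * q) (C ρ * p * (sh e q - q))
      rw [← h1, h2] at h8
      rcases le_max_iff.1 h8 with h9 | h9 <;> omega

end shift

end Pool.Agent.Helper70.ZD
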